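import Mathlib

/-!
# The algebra lemma of Weyl's projective uniqueness theorem

A symmetric trilinear array whose associated quadratic map sends every vector to a multiple of
itself is the symmetric product of the identity with a linear form.
-/

namespace Pool.Agent.helper15.SG

/-- If the quadratic map `v ↦ D(v, v)` is everywhere proportional to `v`, then
`D i j k = δ i j * φ k + δ i k * φ j`. -/
theorem weyl_algebra (D : Fin 3 → Fin 3 → Fin 3 → ℝ) (hs : ∀ i j k, D i j k = D i k j)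
    (h : ∀ v : Fin 3 → ℝ, ∃ m : ℝ, ∀ i, ∑ j, ∑ k, D i j k * v j * v k = m * v i) :
    ∃ φ : Fin 3 → ℝ, ∀ i j k, D i j k = (if i = j then φ k else 0) + (if i = k then φ j else 0) := by
  have key : ∀ x y z : ℝ, ∃ m : ℝ,
      (D 0 0 0 * x * x + D 0 1 1 * y * y + D 0 2 2 * z * z + 2 * D 0 0 1 * x * y
        + 2 * D 0 0 2 * x * z + 2 * D 0 1 2 * y * z = m * x) ∧
      (D 1 0 0 * x * x + D 1 1 1 * y * y + D 1 2 2 * z * z + 2 * D 1 0 1 * x * y
        + 2 * D 1 0 2 * x * z + 2 * D 1 1 2 * y * z = m * y) ∧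
      (D 2 0 0 * x * x + D 2 1 1 * y * y + D 2 2 2 * z * z + 2 * D 2 0 1 * x * y
        + 2 * D 2 0 2 * x * z + 2 * D 2 1 2 * y * z = m * z) := by
    intro x y z
    obtain ⟨m, hm⟩ := h ![x, y, z]
    have e0 := hm 0
    have e1 := hm 1
    have e2 := hm 2
    simp only [Fin.sum_univ_three, Matrix.cons_val_zero, Matrix.cons_val_one,
      Matrix.cons_val] at e0 e1 e2
    refine ⟨m, ?_, ?_, ?_⟩
    · rw [hs 0 1 0, hs 0 2 0, hs 0 2 1] at e0
      linear_combination e0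
    · rw [hs 1 1 0, hs 1 2 0, hs 1 2 1] at e1
      linear_combination e1
    · rw [hs 2 1 0, hs 2 2 0, hs 2 2 1] at e2
      linear_combination e2
  obtain ⟨a1, a2, a3, a4⟩ := key 1 0 0
  obtain ⟨b1, b2, b3, b4⟩ := key 0 1 0
  obtain ⟨c1, c2, c3, c4⟩ := key 0 0 1
  obtain ⟨d1, d2, d3, d4⟩ := key 1 1 0
  obtain ⟨e1, e2, e3, e4⟩ := key 1 (-1) 0
  obtain ⟨f1, f2, f3, f4⟩ := key 1 0 1
  obtain ⟨g1, g2, g3, g4⟩ := key 1 0 (-1)
  obtain ⟨p1, p2, p3, p4⟩ := key 0 1 1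
  obtain ⟨q1, q2, q3, q4⟩ := key 0 1 (-1)
  have s0 := hs 0 0 1
  have s1 := hs 0 0 2
  have s2 := hs 0 1 2
  have s3 := hs 1 0 1
  have s4 := hs 1 0 2
  have s5 := hs 1 1 2
  have s6 := hs 2 0 1
  have s7 := hs 2 0 2
  have s8 := hs 2 1 2
  refine ⟨fun k => D k k k / 2, ?_⟩
  intro i j k
  fin_cases i <;> fin_cases j <;> fin_cases k <;>
    simp <;> linarith

end Pool.Agent.helper15.SG
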