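import Pool.Agent.helper24.SG.SpecD

/-!
# Project sg (MP_2b8aea_gt), module D05: Hausdorff dimension of the upper limit
-/

set_option autoImplicit false

open MeasureTheory Set Metric Filter Topology
open scoped ENNReal NNReal ComplexConjugate

namespace Pool.Agent.SG

theorem D05_expo (q : ℕ) (hq : 2 ≤ q) : 3 / 4 ≤ expo q ∧ expo q < 1 ∧
    (q : ℝ) ^ expo q * (2 : ℝ) ^ (1 / 4 : ℝ) = q := by
  have hq1 : (2 : ℝ) ≤ q := by exact_mod_cast hq
  have hq0 : (0 : ℝ) < q := by linarith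
  have hl2 : 0 < Real.log 2 := Real.log_pos (by norm_num)
  have hlq : Real.log 2 ≤ Real.log q := Real.log_le_log (by norm_num) hq1
  have hlq0 : 0 < Real.log q := lt_of_lt_of_le hl2 hlq
  refine ⟨?_, ?_, ?_⟩
  · unfold expo
    have : Real.log 2 / (4 * Real.log q) ≤ 1 / 4 := by
      rw [div_le_div_iff₀ (by positivity) (by norm_num)]
      linarith
    linarith
  · unfold expo
    have : 0 < Real.log 2 / (4 * Real.log q) := by positivity
    linarith
  · rw [Real.rpow_def_of_pos hq0, Real.rpow_def_of_pos (by norm_num : (0 : ℝ) < 2), ← Real.exp_add]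
    have : Real.log q * expo q + Real.log 2 * (1 / 4) = Real.log q := by
      unfold expo
      field_simp
      ring
    rw [this, Real.exp_log hq0]

/-- The bound for one generation. -/
theorem D05_gen (q N c : ℕ) (hq : 2 ≤ q) (hc : c ^ 2 * 2 ^ N ≤ (q ^ N) ^ 2) :
    (c : ℝ) * (2 * Real.pi / (q : ℝ) ^ N) ^ expo q ≤
      2 * Real.pi * ((2 : ℝ) ^ (-(1 / 4) : ℝ)) ^ N := by
  obtain ⟨hd1, hd2, hd3⟩ := D05_expo q hq
  have hq1 : (2 : ℝ) ≤ q := by exact_mod_cast hq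
  have hq0 : (0 : ℝ) < q := by linarith
  have hpi : (1 : ℝ) ≤ 2 * Real.pi := by linarith [Real.pi_gt_three]
  have hpi0 : (0 : ℝ) < 2 * Real.pi := by linarith
  set s : ℝ := (2 : ℝ) ^ (1 / 4 : ℝ) with hs
  have hs0 : 0 < s := by positivity
  have hs4 : s ^ 4 = 2 := by
    rw [hs, ← Real.rpow_natCast, ← Real.rpow_mul (by norm_num)]
    norm_num
  have hsinv : (2 : ℝ) ^ (-(1 / 4) : ℝ) = s⁻¹ := by
    rw [Real.rpow_neg (by norm_num)]
  have hqd : (q : ℝ) ^ expo q = q / s := by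
    rw [eq_div_iff hs0.ne', hd3]
  have h1 : (2 * Real.pi / (q : ℝ) ^ N) ^ expo q = (2 * Real.pi) ^ expo q * (s ^ N / (q : ℝ) ^ N) := by
    rw [Real.div_rpow hpi0.le (by positivity), ← Real.rpow_natCast (q : ℝ) N,
      ← Real.rpow_mul hq0.le, mul_comm (N : ℝ) (expo q), Real.rpow_mul hq0.le, hqd,
      Real.rpow_natCast, Real.rpow_natCast, div_pow]
    field_simp
  have h2 : (2 * Real.pi) ^ expo q ≤ 2 * Real.pi := by
    calc (2 * Real.pi) ^ expo q ≤ (2 * Real.pi) ^ (1 : ℝ) :=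
          Real.rpow_le_rpow_of_exponent_le hpi hd2.le
      _ = 2 * Real.pi := Real.rpow_one _
  have h3 : (c : ℝ) * s ^ (2 * N) ≤ (q : ℝ) ^ N := by
    have h4 : ((c : ℝ) * s ^ (2 * N)) ^ 2 ≤ ((q : ℝ) ^ N) ^ 2 := by
      have h5 : ((c : ℝ) * s ^ (2 * N)) ^ 2 = (c : ℝ) ^ 2 * 2 ^ N := by
        rw [mul_pow, ← pow_mul, ← hs4, ← pow_mul]
        congr 2
        ring
      rw [h5]
      exact_mod_cast hc
    exact le_of_sq_le_sq h4 (by positivity)
  rw [h1, hsinv]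
  have hqN : (0 : ℝ) < (q : ℝ) ^ N := by positivity
  have hsN : (0 : ℝ) < s ^ N := by positivity
  have h6 : (c : ℝ) * (s ^ N / (q : ℝ) ^ N) ≤ s⁻¹ ^ N := by
    rw [← mul_div_assoc, div_le_iff₀ hqN, inv_pow, inv_mul_eq_div, le_div_iff₀ hsN]
    calc (c : ℝ) * s ^ N * s ^ N = c * s ^ (2 * N) := by ring
      _ ≤ _ := h3
  calc (c : ℝ) * ((2 * Real.pi) ^ expo q * (s ^ N / (q : ℝ) ^ N))
      = (2 * Real.pi) ^ expo q * (c * (s ^ N / (q : ℝ) ^ N)) := by ring
    _ ≤ 2 * Real.pi * s⁻¹ ^ N := mul_le_mul h2 h6 (by positivity) hpi0.le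

theorem D05 (h2 : D02_stmt) : D05_stmt := by
  classical
  intro q S hq hS hcard
  obtain ⟨hcov, -, hdist, -⟩ := h2 q (by omega)
  obtain ⟨hd1, hd2, -⟩ := D05_expo q hq
  have hq1 : (2 : ℝ) ≤ q := by exact_mod_cast hq
  have hq0 : (0 : ℝ) < q := by linarith
  have hpi0 : (0 : ℝ) < 2 * Real.pi := by positivity
  set d : ℝ := expo q with hdef
  have hd0 : 0 < d := by linarith
  set ρ : ℝ := (2 : ℝ) ^ (-(1 / 4) : ℝ) with hρ
  have hρ0 : 0 < ρ := by positivity
  have hρ1 : ρ < 1 := Real.rpow_lt_one_of_one_lt_of_neg (by norm_num) (by norm_num)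
  have hsum : Summable fun N : ℕ => 2 * Real.pi * ρ ^ N :=
    (summable_geometric_of_lt_one hρ0.le hρ1).mul_left _
  set t : ℕ → ℕ × ℕ → Set ℂ := fun n p =>
    if n ≤ p.1 ∧ p.2 ∈ meet q p.1 (S p.1) then arcq q p.1 p.2 else ∅ with ht
  have hdiam : ∀ N k : ℕ, ediam (arcq q N k) ≤ ENNReal.ofReal (2 * Real.pi / (q : ℝ) ^ N) := by
    intro N k
    refine ediam_le fun ξ hξ η hη => ?_
    rw [edist_dist, dist_eq_norm]
    exact ENNReal.ofReal_le_ofReal (hdist N k ξ hξ η hη)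
  have hr : Tendsto (fun n : ℕ => ENNReal.ofReal (2 * Real.pi / (q : ℝ) ^ n)) atTop (𝓝 0) := by
    rw [← ENNReal.ofReal_zero]
    refine ENNReal.tendsto_ofReal ?_
    exact tendsto_const_nhds.div_atTop (tendsto_pow_atTop_atTop_of_one_lt (by linarith))
  have hbound : ∀ n, ∑' p : ℕ × ℕ, ediam (t n p) ^ d ≤
      ∑' N : ℕ, ENNReal.ofReal (2 * Real.pi * ρ ^ N) := by
    intro n
    rw [ENNReal.tsum_prod']
    refine ENNReal.tsum_le_tsum fun N => ?_
    have h1 : ∀ k ∉ meet q N (S N), ediam (t n (N, k)) ^ d = 0 := by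
      intro k hk
      have : t n (N, k) = ∅ := by
        rw [ht]
        exact if_neg fun h => hk h.2
      rw [this, ediam_empty, ENNReal.zero_rpow_of_pos hd0]
    rw [tsum_eq_sum h1]
    have h3 : ∀ k ∈ meet q N (S N), ediam (t n (N, k)) ^ d ≤
        ENNReal.ofReal ((2 * Real.pi / (q : ℝ) ^ N) ^ d) := by
      intro k _
      have h4 : ediam (t n (N, k)) ≤ ENNReal.ofReal (2 * Real.pi / (q : ℝ) ^ N) := by
        rw [ht]
        beta_reduce
        split_ifs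
        · exact hdiam N k
        · rw [ediam_empty]
          exact bot_le
      rw [← ENNReal.ofReal_rpow_of_nonneg (by positivity) hd0.le]
      exact ENNReal.rpow_le_rpow h4 hd0.le
    refine (Finset.sum_le_sum h3).trans ?_
    rw [Finset.sum_const, nsmul_eq_mul, ← ENNReal.ofReal_natCast, ← ENNReal.ofReal_mul (by positivity)]
    exact ENNReal.ofReal_le_ofReal (D05_gen q N _ hq (hcard N))
  have hfin : ∑' N : ℕ, ENNReal.ofReal (2 * Real.pi * ρ ^ N) ≠ ∞ := by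
    rw [← ENNReal.ofReal_tsum_of_nonneg (fun N => by positivity) hsum]
    exact ENNReal.ofReal_ne_top
  have hcover : ∀ n, lsup S ⊆ ⋃ p : ℕ × ℕ, t n p := by
    intro n ξ hξ
    unfold lsup at hξ
    have h1 := mem_iInter.1 hξ n
    obtain ⟨N, hN⟩ := mem_iUnion.1 h1
    obtain ⟨hnN, hN2⟩ := mem_iUnion.1 hN
    obtain ⟨k, hk, hk2⟩ := hcov N ξ (hS N hN2)
    refine mem_iUnion.2 ⟨(N, k), ?_⟩
    rw [ht]
    beta_reduce
    rw [if_pos]
    · exact hk2
    · refine ⟨hnN, ?_⟩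
      unfold meet
      exact Finset.mem_filter.2 ⟨Finset.mem_range.2 hk, ⟨ξ, hk2, hN2⟩⟩
  have hH : μH[d] (lsup S) ≤ liminf (fun n => ∑' p, ediam (t n p) ^ d) atTop := by
    refine Measure.hausdorffMeasure_le_liminf_tsum d (lsup S)
      (fun n : ℕ => ENNReal.ofReal (2 * Real.pi / (q : ℝ) ^ n)) hr t ?_
      (Eventually.of_forall hcover)
    refine Eventually.of_forall fun n p => ?_
    rw [ht]
    beta_reduce
    split_ifs with h
    · refine (hdiam p.1 p.2).trans (ENNReal.ofReal_le_ofReal ?_)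
      refine div_le_div_of_nonneg_left hpi0.le (by positivity) ?_
      exact pow_le_pow_right₀ (by linarith) h.1
    · rw [ediam_empty]
      exact bot_le
  have hH2 : μH[d] (lsup S) ≤ ∑' N : ℕ, ENNReal.ofReal (2 * Real.pi * ρ ^ N) := by
    refine hH.trans ?_
    calc liminf (fun n => ∑' p, ediam (t n p) ^ d) atTop
        ≤ liminf (fun _ : ℕ => ∑' N : ℕ, ENNReal.ofReal (2 * Real.pi * ρ ^ N)) atTop :=
          liminf_le_liminf (Eventually.of_forall hbound)
      _ = _ := liminf_const _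
  have hne : μH[((Real.toNNReal d : ℝ≥0) : ℝ)] (lsup S) ≠ ∞ := by
    rw [Real.coe_toNNReal d hd0.le]
    exact ne_top_of_le_ne_top hfin hH2
  exact dimH_le_of_hausdorffMeasure_ne_top hne

end Pool.Agent.SG
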