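import Pool.Agent.helper17.SG.SpecR

/-!
# R09: lower bound for the hitting probabilities (project sg:)
-/

set_option autoImplicit false

open MeasureTheory Set Metric Filter Topology
open scoped ENNReal NNReal ComplexConjugate

namespace Pool.Agent.SG

theorem R09_fin {Γ : Type} (f : Γ → ℝ≥0∞) (hf : ∀ x, f x ≠ 0) (F : Finset Γ) :
    ∃ c : ℝ, 0 < c ∧ ∀ x ∈ F, ENNReal.ofReal c ≤ f x := by
  classical
  induction F using Finset.induction_on with
  | empty => exact ⟨1, one_pos, fun x hx => absurd hx (Finset.notMem_empty x)⟩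
  | insert a F _ ih =>
    obtain ⟨c, hc, h⟩ := ih
    have h1 : min (f a) 1 ≠ 0 := by
      intro h0
      rcases min_choice (f a) 1 with h2 | h2
      · rw [h2] at h0; exact hf a h0
      · rw [h2] at h0; exact one_ne_zero h0
    have h2 : min (f a) 1 ≠ ⊤ := ne_top_of_le_ne_top ENNReal.one_ne_top (min_le_right _ _)
    have h3 : 0 < (min (f a) 1).toReal := ENNReal.toReal_pos h1 h2
    refine ⟨min c (min (f a) 1).toReal, lt_min hc h3, ?_⟩
    intro x hx
    rcases Finset.mem_insert.1 hx with rfl | hx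
    · calc ENNReal.ofReal (min c (min (f x) 1).toReal) ≤ ENNReal.ofReal (min (f x) 1).toReal :=
            ENNReal.ofReal_le_ofReal (min_le_right _ _)
        _ = min (f x) 1 := ENNReal.ofReal_toReal h2
        _ ≤ f x := min_le_left _ _
    · exact (ENNReal.ofReal_le_ofReal (min_le_left _ _)).trans (h x hx)

/-- geometry of the concatenation -/
theorem R09_geo (hB03 : B03_stmt) {Γ : Type} [Group Γ] (A : DiscRep Γ) (c₀ k₀ : ℝ)
    (hc₀ : 0 < c₀) (hk₀ : 0 < k₀) (w s x : Γ) (hs : k₀ ≤ A.kk s)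
    (h : c₀ ≤ ‖1 - conj (A.pt w⁻¹) * A.act s (A.pt x)‖) :
    A.kk (w * (s * x)) ≤ 4 / (c₀ ^ 2 * k₀) * A.kk x * A.kk w ∧
    k₀ / 16 * A.kk x * A.kk w ≤ A.kk (w * (s * x)) ∧
    ‖A.pt (w * (s * x)) - A.pt w‖ ≤ A.kk w / c₀ := by
  obtain ⟨b1, -, -, b4, -, b6, b7, -, b9, -, b11, b12⟩ := hB03 Γ A
  rw [← b6 s x] at h
  have hw : 0 < A.kk w := (b1 w).1
  have hx : 0 < A.kk x := (b1 x).1
  have hsp : 0 < A.kk s := (b1 s).1
  have hsx : 0 < A.kk (s * x) := (b1 (s * x)).1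
  have hv : 0 < A.kk (w * (s * x)) := (b1 _).1
  refine ⟨?_, ?_, ?_⟩
  · -- upper bound
    have e1 := b7 w (s * x)
    have e2 : A.kk (w * (s * x)) * c₀ ^ 2 ≤ A.kk w * A.kk (s * x) := by
      rw [← e1]
      exact mul_le_mul_of_nonneg_left (pow_le_pow_left₀ hc₀.le h 2) hv.le
    have e3 : A.kk (s * x) * A.kk s ≤ 4 * A.kk x := b11 s x
    have e4 : A.kk (s * x) * k₀ ≤ 4 * A.kk x :=
      (mul_le_mul_of_nonneg_left hs hsx.le).trans e3
    have e5 : A.kk (w * (s * x)) * (c₀ ^ 2 * k₀) ≤ 4 * A.kk x * A.kk w := by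
      calc A.kk (w * (s * x)) * (c₀ ^ 2 * k₀) = (A.kk (w * (s * x)) * c₀ ^ 2) * k₀ := by ring
        _ ≤ (A.kk w * A.kk (s * x)) * k₀ := mul_le_mul_of_nonneg_right e2 hk₀.le
        _ = A.kk w * (A.kk (s * x) * k₀) := by ring
        _ ≤ A.kk w * (4 * A.kk x) := mul_le_mul_of_nonneg_left e4 hw.le
        _ = 4 * A.kk x * A.kk w := by ring
    have hpos : 0 < c₀ ^ 2 * k₀ := by positivity
    calc A.kk (w * (s * x)) ≤ 4 * A.kk x * A.kk w / (c₀ ^ 2 * k₀) := (le_div_iff₀ hpos).2 e5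
      _ = 4 / (c₀ ^ 2 * k₀) * A.kk x * A.kk w := by ring
  · have e1 : A.kk w * A.kk (s * x) ≤ 4 * A.kk (w * (s * x)) := b9 w (s * x)
    have e2 : A.kk s * A.kk x ≤ 4 * A.kk (s * x) := b9 s x
    have e3 : k₀ * A.kk x ≤ 4 * A.kk (s * x) := (mul_le_mul_of_nonneg_right hs hx.le).trans e2
    have e4 : k₀ * A.kk x * A.kk w ≤ 4 * A.kk (s * x) * A.kk w :=
      mul_le_mul_of_nonneg_right e3 hw.le
    nlinarith
  · have e1 := b12 w (s * x)
    rw [le_div_iff₀ hc₀]
    calc ‖A.pt (w * (s * x)) - A.pt w‖ * c₀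
        ≤ ‖A.pt (w * (s * x)) - A.pt w‖ * ‖1 - conj (A.pt w⁻¹) * A.pt (s * x)‖ :=
          mul_le_mul_of_nonneg_left h (norm_nonneg _)
      _ = A.kk w * ‖A.pt (s * x)‖ := e1
      _ ≤ A.kk w * 1 := mul_le_mul_of_nonneg_left (b4 _).le hw.le
      _ = A.kk w := mul_one _

/-- almost every point is conical -/
theorem R09_conical (hR03 : R03_stmt) {Γ : Type} [Group Γ] (A : DiscRep Γ) (W : Walk Γ)
    (ν : Measure ℂ) (hS : StdD A W ν) (hac : ν ≪ lam) (hfin : lam univ ≠ ⊤) :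
    ∀ᵐ η ∂lam, ∃ C : ℝ, 1 ≤ C ∧ ∀ δ : ℝ, 0 < δ → ∃ w : Γ, A.kk w ≤ δ ∧
      ‖η - A.pt w‖ ≤ C * A.kk w := by
  obtain ⟨M, hM, hR⟩ := hR03 Γ A W ν hS hac
  rw [ae_iff]
  by_contra hne
  set B : Set ℂ := {η | ¬ ∃ C : ℝ, 1 ≤ C ∧ ∀ δ : ℝ, 0 < δ → ∃ w : Γ, A.kk w ≤ δ ∧
      ‖η - A.pt w‖ ≤ C * A.kk w} with hB
  have hBfin : lam B ≠ ⊤ := ne_top_of_le_ne_top hfin (measure_mono (subset_univ _))
  have h2 : lam B / 2 ≠ 0 := (ENNReal.half_pos hne).ne'
  obtain ⟨C, c, hC, hc, -, hle⟩ := hR (lam B / 2) h2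
  have hsub : B ⊆ (con A W M C c)ᶜ := by
    intro η hη hcon
    apply hη
    refine ⟨C, hC, ?_⟩
    intro δ hδ
    obtain ⟨k, hk⟩ := exists_pow_lt_of_lt_one hδ (by norm_num : (1 / 2 : ℝ) < 1)
    obtain ⟨n, hn, -, w, -, h3, h4, -⟩ := hcon k
    refine ⟨w, h3.trans (le_trans ?_ hk.le), h4⟩
    exact pow_le_pow_of_le_one (by norm_num) (by norm_num) hn
  have h3 : lam B ≤ lam B / 2 := (measure_mono hsub).trans hle
  exact absurd h3 (not_le.2 (ENNReal.half_lt_self hne hBfin))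

/-- the shadows cover almost everything -/
theorem R09_cover (hB03 : B03_stmt) (hB05 : B05_stmt) (hB14 : B14_stmt) (hB16 : B16_stmt)
    {Γ : Type} [Group Γ] (A : DiscRep Γ) (hdisc : A.Discrete)
    (hcon : ∀ᵐ η ∂lam, ∃ C : ℝ, 1 ≤ C ∧ ∀ δ : ℝ, 0 < δ → ∃ w : Γ, A.kk w ≤ δ ∧
      ‖η - A.pt w‖ ≤ C * A.kk w)
    (v : Γ → Γ) (K k D : ℝ) (hK : 0 ≤ K) (hk : 0 < k) (hD : 0 ≤ D)
    (h1 : ∀ w, A.kk (v w) ≤ K * A.kk w) (h2 : ∀ w, k * A.kk w ≤ A.kk (v w))
    (h3 : ∀ w, ‖A.pt (v w) - A.pt w‖ ≤ D * A.kk w) :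
    ∀ᵐ η ∂lam, ‖η‖ = 1 ∧ ∃ w, ‖η - A.pt (v w)‖ ≤ 2 * A.kk (v w) := by
  obtain ⟨hprob, hcirc, hball, hball', -⟩ := hB05
  haveI : IsProbabilityMeasure lam := hprob
  haveI : Countable Γ := (hB14 Γ A).2.1 hdisc
  obtain ⟨b1, -, -, b4, -⟩ := hB03 Γ A
  set U : Set ℂ := ⋃ w : Γ, closedBall (A.pt (v w)) (2 * A.kk (v w)) with hU
  have hUm : MeasurableSet U := MeasurableSet.iUnion fun w => measurableSet_closedBall
  have hN : lam Uᶜ = 0 := by
    apply hB16 lam Uᶜ hUm.compl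
    filter_upwards [hcon] with η hη _
    obtain ⟨C, hC, hη⟩ := hη
    have hL : 0 < 2 * K + D + C := by linarith
    refine ⟨k / (4 * (2 * K + D + C)), by positivity, ?_⟩
    intro δ hδ
    obtain ⟨w, hw1, hw2⟩ := hη (δ / (2 * (2 * K + D + C))) (by positivity)
    have hkw : 0 < A.kk w := (b1 w).1
    have hkv : 0 < A.kk (v w) := (b1 (v w)).1
    have hkv1 : A.kk (v w) ≤ 1 := (b1 (v w)).2
    have hp1 : ‖A.pt (v w)‖ < 1 := b4 (v w)
    -- the boundary point
    obtain ⟨ξ, hξ1, hξ2⟩ : ∃ ξ : ℂ, ‖ξ‖ = 1 ∧ ‖ξ - A.pt (v w)‖ ≤ A.kk (v w) := by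
      by_cases hp : A.pt (v w) = 0
      · refine ⟨1, norm_one, ?_⟩
        have : A.kk (v w) = 1 := by simp [DiscRep.kk, hp]
        rw [this, hp, sub_zero, norm_one]
      · have hpn : 0 < ‖A.pt (v w)‖ := norm_pos_iff.2 hp
        refine ⟨(‖A.pt (v w)‖ : ℂ)⁻¹ * A.pt (v w), ?_, ?_⟩
        · rw [norm_mul, norm_inv, Complex.norm_real, norm_norm]
          exact inv_mul_cancel₀ hpn.ne'
        · have e1 : (‖A.pt (v w)‖ : ℂ)⁻¹ * A.pt (v w) - A.pt (v w) =
              (((‖A.pt (v w)‖)⁻¹ - 1 : ℝ) : ℂ) * A.pt (v w) := by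
            push_cast
            ring
          rw [e1, norm_mul, Complex.norm_real, Real.norm_eq_abs, abs_of_nonneg]
          · rw [sub_mul, inv_mul_cancel₀ hpn.ne', one_mul]
            have : A.kk (v w) = 1 - ‖A.pt (v w)‖ ^ 2 := rfl
            rw [this]
            nlinarith
          · have := (one_le_inv₀ hpn).2 hp1.le
            linarith
    refine ⟨(2 * K + D + C) * A.kk w, by positivity, ?_, closedBall ξ (A.kk (v w)),
      measurableSet_closedBall, ?_, ?_, ?_⟩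
    · calc (2 * K + D + C) * A.kk w ≤ (2 * K + D + C) * (δ / (2 * (2 * K + D + C))) :=
            mul_le_mul_of_nonneg_left hw1 hL.le
        _ = δ / 2 := by field_simp
        _ < δ := by linarith
    · intro ζ hζ
      rw [mem_closedBall, dist_eq_norm] at hζ ⊢
      have e1 : ζ - η = (ζ - ξ) + (ξ - A.pt (v w)) + (A.pt (v w) - A.pt w) - (η - A.pt w) := by
        ring
      have e2 : ‖ζ - η‖ ≤ ‖ζ - ξ‖ + ‖ξ - A.pt (v w)‖ + ‖A.pt (v w) - A.pt w‖ + ‖η - A.pt w‖ := by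
        rw [e1]
        refine (norm_sub_le _ _).trans ?_
        gcongr
        refine (norm_add_le _ _).trans ?_
        gcongr
        exact norm_add_le _ _
      have := h1 w
      have := h3 w
      nlinarith
    · rw [Set.disjoint_left]
      intro ζ hζ hζU
      apply hζU
      rw [hU, mem_iUnion]
      refine ⟨w, ?_⟩
      rw [mem_closedBall, dist_eq_norm] at hζ ⊢
      have e1 : ζ - A.pt (v w) = (ζ - ξ) + (ξ - A.pt (v w)) := by ring
      rw [e1]
      refine (norm_add_le _ _).trans ?_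
      linarith
    · have hr0 : 0 ≤ (2 * K + D + C) * A.kk w := by positivity
      calc ENNReal.ofReal (k / (4 * (2 * K + D + C))) *
            lam (closedBall η ((2 * K + D + C) * A.kk w))
          ≤ ENNReal.ofReal (k / (4 * (2 * K + D + C))) *
            ENNReal.ofReal ((2 * K + D + C) * A.kk w) := by
            gcongr
            exact hball' _ _ hr0
        _ = ENNReal.ofReal (k / (4 * (2 * K + D + C)) * ((2 * K + D + C) * A.kk w)) :=
            (ENNReal.ofReal_mul (by positivity)).symm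
        _ ≤ ENNReal.ofReal (A.kk (v w) / 4) := by
            apply ENNReal.ofReal_le_ofReal
            have e : k / (4 * (2 * K + D + C)) * ((2 * K + D + C) * A.kk w) = k * A.kk w / 4 := by
              field_simp
            rw [e]
            have := h2 w
            linarith
        _ ≤ lam (closedBall ξ (A.kk (v w))) := (hball ξ (A.kk (v w)) hξ1 hkv.le (by linarith)).1
  have hN' : ∀ᵐ η ∂lam, η ∈ U := by
    rw [ae_iff]
    exact hN
  have hC' : ∀ᵐ η ∂lam, η ∈ circ := by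
    rw [ae_iff]
    exact hcirc
  filter_upwards [hN', hC'] with η hη1 hη2
  refine ⟨by simpa [circ] using hη2, ?_⟩
  rw [hU, mem_iUnion] at hη1
  obtain ⟨w, hw⟩ := hη1
  exact ⟨w, by rwa [mem_closedBall, dist_eq_norm] at hw⟩

/-- the shift of hitting probabilities -/
theorem R09_hit (hP01 : P01_stmt) (hP03 : P03_stmt) {Γ : Type} [Group Γ] (W : Walk Γ) (w s x : Γ)
    (h₀ : ℝ) (hh : 0 < h₀) (hs : ENNReal.ofReal h₀ ≤ W.hit 1 s⁻¹) :
    W.hit w (w * (s * x)) ≤ ENNReal.ofReal (1 / h₀) * W.hit 1 x := by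
  obtain ⟨-, -, -, -, hinv⟩ := hP01 Γ W
  have e1 : W.hit w (w * (s * x)) = W.hit 1 (s * x) := by
    have := hinv w 1 (s * x)
    rwa [mul_one] at this
  have e2 : W.hit s⁻¹ x = W.hit 1 (s * x) := by
    have := hinv s s⁻¹ x
    rw [mul_inv_cancel] at this
    exact this.symm
  have e3 : ENNReal.ofReal h₀ * W.hit 1 (s * x) ≤ W.hit 1 x := by
    calc ENNReal.ofReal h₀ * W.hit 1 (s * x) ≤ W.hit 1 s⁻¹ * W.hit s⁻¹ x := by
          rw [e2]
          gcongr
      _ ≤ W.hit 1 x := hP03 Γ W 1 s⁻¹ x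
  rw [e1]
  calc W.hit 1 (s * x) = ENNReal.ofReal (1 / h₀) * (ENNReal.ofReal h₀ * W.hit 1 (s * x)) := by
        rw [← mul_assoc, ← ENNReal.ofReal_mul (by positivity), one_div, inv_mul_cancel₀ hh.ne',
          ENNReal.ofReal_one, one_mul]
    _ ≤ ENNReal.ofReal (1 / h₀) * W.hit 1 x := by gcongr

/-- R09. LOWER BOUND for the hitting probabilities. -/
theorem R09 (hR03 : R03_stmt) (hR08 : R08_stmt) (hB03 : B03_stmt) (hB05 : B05_stmt)
    (hB13 : B13_stmt) (hB14 : B14_stmt) (hB16 : B16_stmt) (hB17 : B17_stmt) (hP01 : P01_stmt)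
    (hP03 : P03_stmt) (hP04 : P04_stmt) : R09_stmt := by
  intro Γ _ A W ν hS hac
  haveI : IsProbabilityMeasure ν := hS.prob
  haveI : IsProbabilityMeasure lam := hB05.1
  obtain ⟨T₀, c₀, hc₀, hT⟩ := hB13 Γ A hS.nonel
  obtain ⟨b1, -, -, b4, -⟩ := hB03 Γ A
  obtain ⟨k₀, hk₀, hk⟩ := R09_fin (fun s : Γ => ENNReal.ofReal (A.kk s))
    (fun s => (ENNReal.ofReal_pos.2 (b1 s).1).ne') T₀
  have hk' : ∀ s ∈ T₀, k₀ ≤ A.kk s := fun s hs =>
    (ENNReal.ofReal_le_ofReal_iff (b1 s).1.le).1 (hk s hs)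
  obtain ⟨h₀, hh₀, hh⟩ := R09_fin (fun s : Γ => W.hit 1 s⁻¹) (fun s => hP04 Γ W 1 s⁻¹) T₀
  set C₂ : ℝ := 4 / (c₀ ^ 2 * k₀) with hC₂
  have hC₂p : 0 < C₂ := by positivity
  obtain ⟨κ, hκ, hκ1, Ca, hCa, hR⟩ := hR08 Γ A W ν hS hac (2 + 2 * C₂ + 1 / c₀) (by
    have : 0 < 1 / c₀ := by positivity
    linarith)
  obtain ⟨Cb, hCb, hR⟩ := hR (min 1 (1 / (8 * Ca))) (by positivity) (min_le_left _ _)
  have hη : Ca * min 1 (1 / (8 * Ca)) ≤ 1 / 8 := by
    calc Ca * min 1 (1 / (8 * Ca)) ≤ Ca * (1 / (8 * Ca)) :=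
          mul_le_mul_of_nonneg_left (min_le_right _ _) hCa.le
      _ = 1 / 8 := by field_simp
  have hη0 : 0 ≤ Ca * min 1 (1 / (8 * Ca)) := by positivity
  have hcon := R09_conical hR03 A W ν hS hac (measure_ne_top _ _)
  -- the finitely many elements with large kk
  have hfin : {x | κ / C₂ ≤ A.kk x}.Finite := (hB14 Γ A).2.2 hS.disc (κ / C₂) (by positivity)
  obtain ⟨c', hc', hcf⟩ := R09_fin (fun x : Γ => W.hit 1 x) (fun x => hP04 Γ W 1 x) hfin.toFinset
  -- the elements with small kk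
  have hsmall : ∀ x : Γ, A.kk x ≤ κ / C₂ →
      ENNReal.ofReal (k₀ * h₀ / (128 * Cb) * A.kk x) ≤ W.hit 1 x := by
    intro x hx
    have hkx : 0 < A.kk x := (b1 x).1
    have hkx1 : A.kk x ≤ 1 := (b1 x).2
    have hchoice : ∀ w : Γ, ∃ s ∈ T₀, c₀ ≤ ‖1 - conj (A.pt w⁻¹) * A.act s (A.pt x)‖ := fun w =>
      hT (A.pt w⁻¹) (A.pt x) (b4 _).le (b4 _).le
    choose s hsT hsc using hchoice
    have hgeo := fun w => R09_geo hB03 A c₀ k₀ hc₀ hk₀ w (s w) x (hk' _ (hsT w)) (hsc w)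
    have hxC : C₂ * A.kk x ≤ κ := by
      rw [le_div_iff₀ hC₂p] at hx
      linarith
    have g1 : ∀ w, A.kk (w * (s w * x)) ≤ κ * A.kk w := fun w => by
      refine (hgeo w).1.trans ?_
      exact mul_le_mul_of_nonneg_right hxC (b1 w).1.le
    have g1' : ∀ w, A.kk (w * (s w * x)) ≤ C₂ * A.kk w := fun w => by
      refine (hgeo w).1.trans ?_
      apply mul_le_mul_of_nonneg_right _ (b1 w).1.le
      calc C₂ * A.kk x ≤ C₂ * 1 := mul_le_mul_of_nonneg_left hkx1 hC₂p.le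
        _ = C₂ := mul_one _
    have g2 : ∀ w, k₀ / 16 * A.kk x * A.kk w ≤ A.kk (w * (s w * x)) := fun w => (hgeo w).2.1
    have g3 : ∀ w, ‖A.pt (w * (s w * x)) - A.pt w‖ ≤ (1 / c₀) * A.kk w := fun w => by
      refine (hgeo w).2.2.trans (le_of_eq ?_)
      ring
    have hcov := R09_cover hB03 hB05 hB14 hB16 A hS.disc hcon (fun w => w * (s w * x)) κ
      (k₀ / 16 * A.kk x) (1 / c₀) hκ.le (by positivity) (by positivity) g1 g2 g3
    set Q : ℝ := 64 * Cb / (k₀ * h₀ * A.kk x) with hQ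
    have hQ0 : 0 ≤ Q := by positivity
    obtain ⟨-, hle1, -⟩ := hP01 Γ W
    have hHt : W.hit 1 x ≠ ⊤ := ne_top_of_le_ne_top ENNReal.one_ne_top (hle1 1 x)
    set H : ℝ := (W.hit 1 x).toReal with hH
    have hH0 : 0 ≤ H := ENNReal.toReal_nonneg
    have hHe : W.hit 1 x = ENNReal.ofReal H := (ENNReal.ofReal_toReal hHt).symm
    have hB := hB17 lam ν (ENNReal.ofReal (1 / 2 + Q * H)) ENNReal.ofReal_ne_top hac (by
      filter_upwards [hcov] with ζ hζ δ hδ
      obtain ⟨hζ1, w, hw⟩ := hζ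
      have hkw : 0 < A.kk w := (b1 w).1
      have hkv : 0 < A.kk (w * (s w * x)) := (b1 _).1
      have hkv1 : A.kk (w * (s w * x)) ≤ 1 := (b1 _).2
      have hr : 0 < min (δ / 2) (κ * A.kk (w * (s w * x))) := by positivity
      refine ⟨min (δ / 2) (κ * A.kk (w * (s w * x))), hr,
        lt_of_le_of_lt (min_le_left _ _) (by linarith), ?_⟩
      have hκv : κ * A.kk (w * (s w * x)) ≤ 1 := by nlinarith
      have h1 : ‖ζ - A.pt w‖ ≤ (2 + 2 * C₂ + 1 / c₀) * A.kk w := by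
        have e1 : ζ - A.pt w = (ζ - A.pt (w * (s w * x))) + (A.pt (w * (s w * x)) - A.pt w) := by
          ring
        have e2 : ‖ζ - A.pt w‖ ≤ ‖ζ - A.pt (w * (s w * x))‖ + ‖A.pt (w * (s w * x)) - A.pt w‖ := by
          rw [e1]
          exact norm_add_le _ _
        have e3 := g1' w
        have e4 := g3 w
        nlinarith
      have h2 : ‖ζ - A.pt (w * (s w * x))‖ ≤ (2 + 2 * C₂ + 1 / c₀) * A.kk (w * (s w * x)) := by
        refine hw.trans (mul_le_mul_of_nonneg_right ?_ hkv.le)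
        have : 0 < 1 / c₀ := by positivity
        linarith
      have h3 := hR ζ w (w * (s w * x)) (min (δ / 2) (κ * A.kk (w * (s w * x)))) hζ1 (g1 w) h1 h2
        hr (min_le_right _ _)
      have h4 := (hB05.2.2.1 ζ (min (δ / 2) (κ * A.kk (w * (s w * x)))) hζ1 hr.le
        ((min_le_right _ _).trans (by linarith))).1
      set r : ℝ := min (δ / 2) (κ * A.kk (w * (s w * x))) with hrdef
      have h5 := R09_hit hP01 hP03 W w (s w) x h₀ hh₀ (hh _ (hsT w))
      have h6 : Cb * (A.kk w / A.kk (w * (s w * x))) ≤ Cb * (16 / (k₀ * A.kk x)) := by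
        apply mul_le_mul_of_nonneg_left _ hCb.le
        rw [div_le_div_iff₀ hkv (by positivity)]
        have := g2 w
        nlinarith
      have h7 : ENNReal.ofReal (Cb * (A.kk w / A.kk (w * (s w * x)))) * W.hit w (w * (s w * x)) ≤
          ENNReal.ofReal (Q / 4 * H) := by
        calc ENNReal.ofReal (Cb * (A.kk w / A.kk (w * (s w * x)))) * W.hit w (w * (s w * x))
            ≤ ENNReal.ofReal (Cb * (16 / (k₀ * A.kk x))) *
              (ENNReal.ofReal (1 / h₀) * ENNReal.ofReal H) := by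
              gcongr
              rw [← hHe]
              exact h5
          _ = ENNReal.ofReal (Q / 4 * H) := by
              rw [← ENNReal.ofReal_mul (by positivity), ← ENNReal.ofReal_mul (by positivity)]
              congr 1
              rw [hQ]
              field_simp
              ring
      calc ν (closedBall ζ r)
          ≤ (ENNReal.ofReal (Ca * min 1 (1 / (8 * Ca))) +
              ENNReal.ofReal (Cb * (A.kk w / A.kk (w * (s w * x)))) *
              W.hit w (w * (s w * x))) * ENNReal.ofReal r := h3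
        _ ≤ (ENNReal.ofReal (1 / 8) + ENNReal.ofReal (Q / 4 * H)) * ENNReal.ofReal r := by
              gcongr
        _ = ENNReal.ofReal ((1 / 8 + Q / 4 * H) * r) := by
              rw [← ENNReal.ofReal_add (by norm_num) (by positivity),
                ← ENNReal.ofReal_mul (by positivity)]
        _ = ENNReal.ofReal ((1 / 2 + Q * H) * (r / 4)) := by
              congr 1
              ring
        _ = ENNReal.ofReal (1 / 2 + Q * H) * ENNReal.ofReal (r / 4) :=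
              ENNReal.ofReal_mul (by positivity)
        _ ≤ ENNReal.ofReal (1 / 2 + Q * H) * lam (closedBall ζ r) := by
              gcongr) univ MeasurableSet.univ
    rw [measure_univ, measure_univ, mul_one, ← ENNReal.ofReal_one] at hB
    have h8 : 1 ≤ 1 / 2 + Q * H := (ENNReal.ofReal_le_ofReal_iff (by positivity)).1 hB
    rw [hHe]
    apply ENNReal.ofReal_le_ofReal
    have h9 : 1 / 2 ≤ Q * H := by linarith
    have h10 : Q * (k₀ * h₀ / (128 * Cb) * A.kk x) = 1 / 2 := by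
      rw [hQ]
      field_simp
      norm_num
    have hQp : 0 < Q := by positivity
    rw [← h10] at h9
    exact le_of_mul_le_mul_left h9 hQp
  refine ⟨min c' (k₀ * h₀ / (128 * Cb)), by positivity, ?_⟩
  intro x
  have hkx : 0 < A.kk x := (b1 x).1
  have hkx1 : A.kk x ≤ 1 := (b1 x).2
  by_cases hx : A.kk x ≤ κ / C₂
  · refine le_trans (ENNReal.ofReal_le_ofReal ?_) (hsmall x hx)
    exact mul_le_mul_of_nonneg_right (min_le_right _ _) hkx.le
  · refine le_trans (ENNReal.ofReal_le_ofReal ?_) (hcf x ?_)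
    · calc min c' (k₀ * h₀ / (128 * Cb)) * A.kk x ≤ c' * A.kk x :=
            mul_le_mul_of_nonneg_right (min_le_left _ _) hkx.le
        _ ≤ c' * 1 := mul_le_mul_of_nonneg_left hkx1 hc'.le
        _ = c' := mul_one _
    · rw [Set.Finite.mem_toFinset]
      exact (not_le.1 hx).le

end Pool.Agent.SG
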